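import Mathlib
import Pool.Agent.W2helper5.KA.Stm3

/-!
Piece COM of project KA3 (helper5): `i(k) u = u i(S⁻² k)` in the Drinfeld double.
-/

set_option autoImplicit false

namespace Pool.Agent.W2helper69.KA3

open TensorProduct
open Pool.Agent.W2helper5.KA3

section

variable {K H : Type} [Field K] [Ring H] [HopfAlgebra K H]

lemma exists_sweedler_list (x : H ⊗[K] (H ⊗[K] H)) :
    ∃ l : List (H × H × H), (l.map (fun p => p.1 ⊗ₜ[K] (p.2.1 ⊗ₜ[K] p.2.2))).sum = x := by
  induction x using TensorProduct.induction_on with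
  | zero => exact ⟨[], rfl⟩
  | add x y hx hy =>
    obtain ⟨l, hl⟩ := hx
    obtain ⟨m, hm⟩ := hy
    exact ⟨l ++ m, by rw [List.map_append, List.sum_append, hl, hm]⟩
  | tmul a y =>
    induction y using TensorProduct.induction_on with
    | zero => exact ⟨[], by simp⟩
    | add x y hx hy =>
      obtain ⟨l, hl⟩ := hx
      obtain ⟨m, hm⟩ := hy
      exact ⟨l ++ m, by rw [List.map_append, List.sum_append, hl, hm, TensorProduct.tmul_add]⟩
    | tmul b c => exact ⟨[(a, b, c)], by simp⟩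

lemma exists_sweedler (k : H) : ∃ (n : ℕ) (a b c : Fin n → H), IsSweedler K k a b c := by
  obtain ⟨l, hl⟩ := exists_sweedler_list (K := K)
    (LinearMap.lTensor H (Coalgebra.comul (R := K) (A := H)) (Coalgebra.comul (R := K) k))
  refine ⟨l.length, fun t => (l.get t).1, fun t => (l.get t).2.1, fun t => (l.get t).2.2, ?_⟩
  unfold IsSweedler
  rw [← hl, ← List.sum_ofFn]
  congr 1
  conv_rhs => rw [← List.ofFn_get l]
  rw [List.map_ofFn]
  rfl

variable {Sinv : H →ₗ[K] H}

lemma sinv_mul (h1 : Sinv ∘ₗ HopfAlgebra.antipode (R := K) (A := H) = LinearMap.id)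
    (h2 : HopfAlgebra.antipode (R := K) (A := H) ∘ₗ Sinv = LinearMap.id) (x y : H) :
    Sinv (x * y) = Sinv y * Sinv x := by
  have e1 : ∀ z, Sinv (HopfAlgebra.antipode (R := K) (A := H) z) = z := fun z =>
    LinearMap.congr_fun h1 z
  have e2 : ∀ z, HopfAlgebra.antipode (R := K) (A := H) (Sinv z) = z := fun z =>
    LinearMap.congr_fun h2 z
  have h3 : HopfAlgebra.antipode (R := K) (A := H) (Sinv y * Sinv x) = x * y := by
    rw [HopfAlgebra.antipode_mul_antidistrib, e2, e2]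
  rw [← h3, e1]

lemma sinv_one (h1 : Sinv ∘ₗ HopfAlgebra.antipode (R := K) (A := H) = LinearMap.id) :
    Sinv 1 = 1 := by
  have e1 : ∀ z, Sinv (HopfAlgebra.antipode (R := K) (A := H) z) = z := fun z =>
    LinearMap.congr_fun h1 z
  have := e1 1
  rwa [HopfAlgebra.antipode_one] at this

/-- `a ⊗ b ↦ b * S⁻¹ a` -/
noncomputable def M (Sinv : H →ₗ[K] H) : H ⊗[K] H →ₗ[K] H :=
  LinearMap.mul' K H ∘ₗ (TensorProduct.comm K H H).toLinearMap ∘ₗ (Sinv.rTensor H)

lemma M_comul (h1 : Sinv ∘ₗ HopfAlgebra.antipode (R := K) (A := H) = LinearMap.id)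
    (h2 : HopfAlgebra.antipode (R := K) (A := H) ∘ₗ Sinv = LinearMap.id) (x : H) :
    M Sinv (Coalgebra.comul (R := K) x) = algebraMap K H (Coalgebra.counit (R := K) x) := by
  have e1 : ∀ z, Sinv (HopfAlgebra.antipode (R := K) (A := H) z) = z := fun z =>
    LinearMap.congr_fun h1 z
  have e : M Sinv = Sinv ∘ₗ LinearMap.mul' K H ∘ₗ
      (HopfAlgebra.antipode (R := K) (A := H)).lTensor H := by
    ext a b
    simp [M, sinv_mul h1 h2, e1]
  rw [e]
  simp only [LinearMap.comp_apply]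
  rw [HopfAlgebra.mul_antipode_lTensor_comul_apply]
  rw [Algebra.algebraMap_eq_smul_one, map_smul, sinv_one h1]

/-- `a ⊗ (b ⊗ c) ↦ b * S⁻¹ a * y * S⁻² c` -/
noncomputable def L (Sinv : H →ₗ[K] H) (y : H) : H ⊗[K] (H ⊗[K] H) →ₗ[K] H :=
  LinearMap.mul' K H ∘ₗ TensorProduct.map (LinearMap.mulRight K y ∘ₗ M Sinv) (Sinv ∘ₗ Sinv) ∘ₗ
    (TensorProduct.assoc K H H H).symm.toLinearMap

lemma L_tmul (y a b c : H) : L Sinv y (a ⊗ₜ (b ⊗ₜ c)) = b * Sinv a * y * Sinv (Sinv c) := by
  simp [L, M]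

lemma L_comul (h1 : Sinv ∘ₗ HopfAlgebra.antipode (R := K) (A := H) = LinearMap.id)
    (h2 : HopfAlgebra.antipode (R := K) (A := H) ∘ₗ Sinv = LinearMap.id) (y k : H) :
    L Sinv y (LinearMap.lTensor H (Coalgebra.comul (R := K) (A := H))
      (Coalgebra.comul (R := K) k)) = y * Sinv (Sinv k) := by
  unfold L
  simp only [LinearMap.comp_apply, LinearEquiv.coe_coe]
  rw [Coalgebra.coassoc_symm_apply]
  have e : ∀ z : H ⊗[K] H, LinearMap.mul' K H (TensorProduct.map
      (LinearMap.mulRight K y ∘ₗ M Sinv) (Sinv ∘ₗ Sinv)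
      (LinearMap.rTensor H (Coalgebra.comul (R := K) (A := H)) z)) =
      (LinearMap.mulLeft K y ∘ₗ Sinv ∘ₗ Sinv ∘ₗ (TensorProduct.lid K H).toLinearMap)
        (LinearMap.rTensor H (Coalgebra.counit (R := K) (A := H)) z) := by
    intro z
    induction z using TensorProduct.induction_on with
    | zero => simp
    | add a b ha hb => simp only [map_add, ha, hb]
    | tmul a b =>
      simp only [LinearMap.rTensor_tmul, TensorProduct.map_tmul, LinearMap.comp_apply,
        LinearMap.mul'_apply, LinearMap.mulRight_apply, LinearMap.mulLeft_apply, M_comul h1 h2,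
        LinearEquiv.coe_coe, TensorProduct.lid_tmul, map_smul]
      rw [Algebra.algebraMap_eq_smul_one, smul_mul_assoc, one_mul, smul_mul_assoc]
  rw [e, Coalgebra.rTensor_counit_comul]
  simp

end

theorem COM : P_COM := by
  intro K H D _ _ _ _ _ Sinv h1 h2 i j hD n e k
  obtain ⟨N, a, b, c, hs⟩ := exists_sweedler (K := K) k
  have key : ∀ l : Fin n, ∑ t, b t * Sinv (a t) * e l * Sinv (Sinv (c t)) =
      e l * Sinv (Sinv k) := by
    intro l
    rw [← L_comul h1 h2 (e l) k, ← hs, map_sum]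
    exact Finset.sum_congr rfl fun t _ => (L_tmul _ _ _ _).symm
  have htr : ∀ (m : Fin n) (t : Fin N), tr (e.coord m ∘ₗ Sinv) (Sinv (c t)) (a t) =
      ∑ l, (e.coord m (Sinv (a t) * e l * Sinv (Sinv (c t)))) • (e.coord l ∘ₗ Sinv) := by
    intro m t
    ext x
    have hx : Sinv x = ∑ l, e.coord l (Sinv x) • e l := by
      conv_lhs => rw [← e.sum_repr (Sinv x)]
      rfl
    have : tr (e.coord m ∘ₗ Sinv) (Sinv (c t)) (a t) x =
        e.coord m (Sinv (a t) * Sinv x * Sinv (Sinv (c t))) := by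
      simp only [tr, LinearMap.comp_apply, LinearMap.mulRight_apply, LinearMap.mulLeft_apply,
        sinv_mul h1 h2, mul_assoc]
    rw [this]
    conv_lhs => rw [hx]
    rw [Finset.mul_sum, Finset.sum_mul, map_sum, LinearMap.sum_apply]
    refine Finset.sum_congr rfl fun l _ => ?_
    rw [mul_smul_comm, smul_mul_assoc, map_smul, LinearMap.smul_apply, LinearMap.comp_apply,
      smul_eq_mul, smul_eq_mul, mul_comm]
  unfold Θ
  rw [Finset.mul_sum, Finset.sum_mul]
  have h3 : ∀ m : Fin n, i k * (j (e.coord m ∘ₗ Sinv) * i ((LinearMap.id : H →ₗ[K] H) (e m))) =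
      ∑ l, j (e.coord l ∘ₗ Sinv) *
        i (∑ t, b t * ((e.coord m (Sinv (a t) * e l * Sinv (Sinv (c t)))) • e m)) := by
    intro m
    rw [← mul_assoc, hD.rel k _ N a b c hs, Finset.sum_mul]
    simp only [htr, map_sum, map_smul, Finset.sum_mul, Finset.mul_sum, map_mul, LinearMap.id_apply,
      smul_mul_assoc, mul_smul_comm, mul_assoc]
    rw [Finset.sum_comm]
  rw [Finset.sum_congr rfl fun m _ => h3 m, Finset.sum_comm]
  refine Finset.sum_congr rfl fun l _ => ?_
  rw [← Finset.mul_sum, ← map_sum, mul_assoc, LinearMap.id_apply, ← map_mul, ← key l,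
    Finset.sum_comm]
  congr 2
  refine Finset.sum_congr rfl fun t _ => ?_
  rw [← Finset.mul_sum]
  have : ∑ m, (e.coord m (Sinv (a t) * e l * Sinv (Sinv (c t)))) • e m =
      Sinv (a t) * e l * Sinv (Sinv (c t)) := e.sum_repr _
  rw [this]
  simp only [mul_assoc]

end Pool.Agent.W2helper69.KA3
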